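import Mathlib
import Pool.Agent.Helper67.BN.Main2

/-!
# `B(≠*, 2^(2^n))` is a proper subclass of `B(≠*, 2^(n!))`

We build, by forcing with bushy trees, a function `a` with `a k < N k` such that every computable
function `x` satisfies `x i ≠ a k mod 2^(i!)` for all `i` of the `k`-th block of a fast growing
sequence of blocks (for almost all `k`), while each function `Y m < 2^(2^m)` computable from `a` is
equal infinitely often to a computable function. The point is that the `k`-th block of arguments of
`i ↦ 2^(i!)` is shorter than the number of arguments `m` with `2^m` well below the largest `i!` of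
the block, since `n!` grows faster than every `2^(c n)`; so every node of the tree can be given its
own argument `m`.
-/

set_option autoImplicit false

namespace Pool.Agent.Results.MP_738f0f_lc.ProperSubclass

open Pool.Agent.Helper67.BN
open Nat.Partrec (Code)
open Nat.Partrec.Code

/-! ### Definitions used in the statement -/

open Classical in
/-- The oracle `A`: its characteristic function. -/
noncomputable def orc (A : Set ℕ) : ℕ →. ℕ := fun n => Part.some (if n ∈ A then 1 else 0)

/-- The class `B(≠*, h)`: the oracles `A` which compute a function `y` with `y n < h n` for all `n`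
such that, for every computable function `x`, `x n ≠ y n` for all but finitely many `n`. -/
def BNeq (h : ℕ → ℕ) : Set (Set ℕ) :=
  {A | ∃ y : ℕ → ℕ, ComputableIn {orc A} y ∧ (∀ n, y n < h n) ∧
    ∀ x : ℕ → ℕ, Computable x → ∀ᶠ n in Filter.atTop, x n ≠ y n}

/-! ### The easy inclusion -/

theorem pow_le_factorial {n : ℕ} (hn : 4 ≤ n) : 2 ^ n ≤ n.factorial := by
  induction n, hn using Nat.le_induction with
  | base => decide
  | succ n hn ih =>
    rw [pow_succ, Nat.factorial_succ]
    nlinarith

theorem easy : BNeq (fun n => 2 ^ (2 ^ n)) ⊆ BNeq (fun n => 2 ^ n.factorial) := by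
  rintro A ⟨y, hy, hy1, hy2⟩
  refine ⟨fun n => y n % 2 ^ n.factorial, ?_, ?_, ?_⟩
  · exact cmod hy (cpw 2 (cfct ComputableIn.id))
  · intro n
    exact Nat.mod_lt _ (by positivity)
  · intro x hx
    filter_upwards [hy2 x hx, Filter.eventually_ge_atTop 4] with n hn hn4
    have h1 : y n < 2 ^ n.factorial :=
      lt_of_lt_of_le (hy1 n) (Nat.pow_le_pow_right (by norm_num) (pow_le_factorial hn4))
    rw [Nat.mod_eq_of_lt h1]
    exact hn

/-! ### The oracle attached to a function -/

/-- the graph of `a`, as a set of numbers -/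
def gr (a : ℕ → ℕ) : Set ℕ := {n | a (Nat.unpair n).1 = (Nat.unpair n).2}

theorem a_comp (a : ℕ → ℕ) : ComputableIn {orc (gr a)} a := by
  classical
  have h0 : ComputableIn {orc (gr a)} fun n : ℕ => if n ∈ gr a then 1 else 0 := by
    have : RecursiveIn {orc (gr a)} (orc (gr a)) := RecursiveIn.oracle _ rfl
    exact this
  have h1 : ComputableIn {orc (gr a)} fun n : ℕ => 1 - (if n ∈ gr a then 1 else 0) :=
    csub (cconst 1) h0
  have h2 : Nat.RecursiveIn {orc (gr a)}
      (fun n : ℕ => (Part.some (1 - (if n ∈ gr a then 1 else 0)) : Part ℕ)) :=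
    RecursiveIn.iff_nat.1 h1
  have h3 := Nat.RecursiveIn.rfind h2
  refine RecursiveIn.iff_nat.2 (h3.of_eq fun k => ?_)
  refine Part.eq_some_iff.2 (Nat.mem_rfind.2 ⟨?_, ?_⟩)
  · simp [gr]
  · intro m hm
    have : ¬ a k = m := by omega
    simp [gr, this]

/-! ### The block containing an argument -/

/-- the index of the block containing `i` -/
def kk (i : ℕ) : ℕ := nsum (i + 1) fun k => ind (decide (bb (k + 1) ≤ i))

theorem kk_eq {i k : ℕ} (h1 : bb k ≤ i) (h2 : i < bb (k + 1)) : kk i = k := by
  unfold kk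
  rw [nsum_ind]
  have h3 : (Finset.range (i + 1)).filter (fun l => decide (bb (l + 1) ≤ i) = true)
      = Finset.range k := by
    ext l
    simp only [Finset.mem_filter, Finset.mem_range, decide_eq_true_eq]
    constructor
    · rintro ⟨-, h⟩
      by_contra hc
      have : bb (k + 1) ≤ bb (l + 1) := bb_strictMono.monotone (by omega)
      omega
    · intro h
      have h4 : bb (l + 1) ≤ bb k := bb_strictMono.monotone (by omega)
      have h5 : l + 1 ≤ bb (l + 1) := bb_strictMono.id_le (l + 1)
      exact ⟨by omega, by omega⟩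
  rw [h3, Finset.card_range]

theorem ckk {O : Set (ℕ →. ℕ)} {f : ℕ → ℕ} (hf : ComputableIn O f) :
    ComputableIn O fun a => kk (f a) := by
  unfold kk
  exact nsum_comp (cadd hf (cconst 1)) (cind (cle (cbb (cadd ci_snd (cconst 1)))
    (ci_comp hf ci_fst)))

theorem exists_block {i k₀ : ℕ} (h : bb k₀ ≤ i) : ∃ k, k₀ ≤ k ∧ bb k ≤ i ∧ i < bb (k + 1) := by
  classical
  have hex : ∃ k, i < bb (k + 1) := ⟨i, lt_of_lt_of_le (Nat.lt_succ_self i)
    (bb_strictMono.id_le (i + 1))⟩
  refine ⟨Nat.find hex, ?_, ?_, Nat.find_spec hex⟩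
  · by_contra hc
    push Not at hc
    have h1 : bb (Nat.find hex + 1) ≤ bb k₀ := bb_strictMono.monotone hc
    have h2 := Nat.find_spec hex
    omega
  · rcases Nat.eq_zero_or_pos (Nat.find hex) with h0 | h0
    · rw [h0]
      exact (bb_strictMono.monotone (Nat.zero_le k₀)).trans h
    · have h1 := Nat.find_min hex (m := Nat.find hex - 1) (by omega)
      have h2 : Nat.find hex - 1 + 1 = Nat.find hex := by omega
      rw [h2] at h1
      omega

/-! ### Conclusion -/

/-- approximations of the oracle -/
def Dor (σ : List ℕ) (n : ℕ) : Option ℕ :=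
  bif decide ((Nat.unpair n).1 < σ.length) then
    some (ind (decide (σ.getD (Nat.unpair n).1 0 = (Nat.unpair n).2))) else none

theorem Dor_comp : Computable₂ Dor := by
  have h1 : ComputableIn ∅ fun p : List ℕ × ℕ => Dor p.1 p.2 := by
    unfold Dor
    refine ccond (clt (cunl ci_snd) (clen ci_fst)) ?_ (cconst none)
    exact ci_compC (f := fun n : ℕ => some n) Computable.option_some
      (cind (ceqN (cgetD 0 ci_fst (cunl ci_snd)) (cunr ci_snd)))
  exact computable_of_ci h1

theorem strict : ∃ A : Set ℕ, A ∈ BNeq (fun n => 2 ^ n.factorial) ∧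
    A ∉ BNeq (fun n => 2 ^ (2 ^ n)) := by
  classical
  obtain ⟨a, ha1, ha2⟩ := exists_generic
  refine ⟨gr a, ⟨fun i => a (kk i) % 2 ^ i.factorial, ?_, ?_, ?_⟩, ?_⟩
  · exact cmod (ci_comp (a_comp a) (ckk ComputableIn.id)) (cpw 2 (cfct ComputableIn.id))
  · intro n
    exact Nat.mod_lt _ (by positivity)
  · intro x hx
    obtain ⟨k₀, hk₀⟩ := ha1 x hx
    filter_upwards [Filter.eventually_ge_atTop (bb k₀)] with i hi hxi
    obtain ⟨k, h1, h2, h3⟩ := exists_block hi
    rw [kk_eq h2 h3] at hxi
    exact hk₀ k h1 ⟨i, h2, h3, hxi⟩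
  · rintro ⟨Y, hY, hY1, hY2⟩
    -- the use principle
    have hY' : Nat.RecursiveIn {fun n => Part.some (if n ∈ gr a then 1 else 0)}
        (fun n => Part.some (Y n)) := RecursiveIn.iff_nat.1 hY
    obtain ⟨F, hF, -, hF2⟩ := use_principle Dor Dor_comp (by
      intro σ τ n v h1 h2
      unfold Dor at h2 ⊢
      by_cases h3 : (Nat.unpair n).1 < σ.length
      · have h4 : (Nat.unpair n).1 < τ.length := lt_of_lt_of_le h3 h1.length_le
        rw [List.getD_eq_getElem _ _ h3] at h2
        rw [List.getD_eq_getElem _ _ h4, ← h1.getElem h3]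
        simpa [h3, h4] using h2
      · simp [h3] at h2) a (fun n => if n ∈ gr a then 1 else 0) (by
      intro n
      refine ⟨(Nat.unpair n).1 + 1, ?_⟩
      unfold Dor
      have h4 : (Nat.unpair n).1 < (seg a ((Nat.unpair n).1 + 1)).length := by
        rw [length_seg]; omega
      rw [List.getD_eq_getElem _ _ h4]
      have h5 : (seg a ((Nat.unpair n).1 + 1))[(Nat.unpair n).1] = a (Nat.unpair n).1 := by
        simp [seg]
      rw [h5]
      by_cases h6 : a (Nat.unpair n).1 = (Nat.unpair n).2
      · simp [length_seg, gr, h6, ind]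
      · simp [length_seg, gr, h6, ind]) _ hY'
    obtain ⟨c, hc⟩ := exists_code.1 hF
    have hcF : ∀ (τ : List ℕ) (m v : ℕ), v ∈ c.eval (Encodable.encode (τ, m)) ↔ v ∈ F τ m := by
      intro τ m v
      rw [hc]
      simp
    have hEv : ∀ m v n, Ev c m v (seg a n) → v = Y m := by
      rintro m v n ⟨τ', h1, h2⟩
      have h3 : τ' = seg a τ'.length := by
        have h4 := List.prefix_iff_eq_take.1 h1
        rw [take_seg a n _ (by have := h1.length_le; rwa [length_seg] at this)] at h4
        exact h4
      rw [hcF, h3] at h2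
      have := (hF2 m v).2 ⟨_, h2⟩
      exact Part.mem_some_iff.1 this
    rcases ha2 c with ⟨m, hm⟩ | ⟨x, hx, hxh⟩
    · obtain ⟨n, hn⟩ := (hF2 m (Y m)).1 (Part.mem_some _)
      exact hm n ⟨Y m, hY1 m, seg a n, List.prefix_refl _, (hcF _ _ _).2 hn⟩
    · obtain ⟨M, hM⟩ := Filter.eventually_atTop.1 (hY2 x hx)
      obtain ⟨m, hm, n, hn⟩ := hxh M
      exact hM m hm (hEv m _ n hn)

/-- **Answer to Q2 (positive).** `B(≠*, 2^(2^n))` is a proper subclass of `B(≠*, 2^(n!))`. -/
theorem result : BNeq (fun n => 2 ^ (2 ^ n)) ⊂ BNeq (fun n => 2 ^ n.factorial) := by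
  obtain ⟨A, h1, h2⟩ := strict
  exact ⟨easy, fun h => h2 (h h1)⟩

end Pool.Agent.Results.MP_738f0f_lc.ProperSubclass
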